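import Mathlib
import Pool.Agent.H10.Cost

namespace Pool.Agent.Results.MP_ff3c98_co.Bounded

variable {V : Type} [Fintype V] [DecidableEq V]

/-- A 2-colouring is distinguishing if only the identity automorphism preserves all colours. -/
def Distinguishing (G : SimpleGraph V) (c : V → Bool) : Prop :=
  ∀ φ : G ≃g G, (∀ v, c (φ v) = c v) → ∀ v, φ v = v

/-- A determining set: only the identity automorphism fixes each of its vertices. -/
def Determining (G : SimpleGraph V) (S : Finset V) : Prop :=
  ∀ φ : G ≃g G, (∀ v ∈ S, φ v = v) → ∀ v, φ v = v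

/-- The determining number: the least size of a determining set. -/
noncomputable def Det (G : SimpleGraph V) : ℕ :=
  sInf {n | ∃ S : Finset V, Determining G S ∧ S.card = n}

/-- The cost number: the least size of a colour class of a distinguishing 2-colouring. -/
noncomputable def cost (G : SimpleGraph V) : ℕ :=
  sInf {n | ∃ (c : V → Bool) (b : Bool), Distinguishing G c ∧
    (Finset.univ.filter fun v => c v = b).card = n}

def autG (G : SimpleGraph V) : Subgroup (Equiv.Perm V) where
  carrier := {g | ∀ x y, G.Adj (g x) (g y) ↔ G.Adj x y}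
  one_mem' := fun _ _ => Iff.rfl
  mul_mem' := fun {g h} hg hh x y => (hg (h x) (h y)).trans (hh x y)
  inv_mem' := fun {g} hg x y => by
    have := hg (g⁻¹ x) (g⁻¹ y)
    simpa using this.symm

theorem result (d : ℕ) : ∃ C : ℕ, ∀ (V : Type) [Fintype V] [DecidableEq V] (G : SimpleGraph V),
    (∃ c : V → Bool, Distinguishing G c) → Det G = d → cost G ≤ C := by
  obtain ⟨C, hC⟩ := Pool.Agent.H10.Cost.unif d
  refine ⟨C, fun V _ _ G ⟨c, hc⟩ hd => ?_⟩
  rcases isEmpty_or_nonempty V with hV | ⟨⟨v0⟩⟩
  · refine le_trans (Nat.sInf_le ⟨c, true, hc, ?_⟩) (Nat.zero_le C)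
    simp [Finset.univ_eq_empty]
  have hne : {n | ∃ S : Finset V, Determining G S ∧ S.card = n}.Nonempty :=
    ⟨_, Finset.univ, fun φ h v => h v (Finset.mem_univ v), rfl⟩
  obtain ⟨B, hB, hcard⟩ := Nat.sInf_mem hne
  have hcard' : B.card = d := hcard.trans hd
  obtain ⟨S, hS, hrig⟩ := hC V (autG G) (fun i => B.toList.getD i v0) {v | c v = true}
    (by
      intro g hg h
      refine Equiv.ext (hB ⟨g, fun {x y} => hg x y⟩ fun v hv => ?_)
      obtain ⟨i, hi, rfl⟩ := List.getElem_of_mem (Finset.mem_toList.mpr hv)
      have hi' : i < d + 1 := by rw [Finset.length_toList, hcard'] at hi; omega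
      have := h ⟨i, hi'⟩
      simp only [List.getD_eq_getElem _ _ hi] at this
      exact this)
    (by
      intro g hg h
      refine Equiv.ext (hc ⟨g, fun {x y} => hg x y⟩ fun v => ?_)
      have := h v
      simp only [Set.mem_setOf_eq] at this
      show c (g v) = c v
      exact Bool.eq_iff_iff.mpr this.symm)
  refine le_trans (Nat.sInf_le ⟨fun v => decide (v ∈ S), true, ?_, ?_⟩) hS
  · intro φ h v
    have := hrig φ.toEquiv (fun x y => φ.map_adj_iff) fun x hx => by
      have h1 := h x
      simp only [hx, decide_true, decide_eq_true_eq] at h1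
      exact h1
    exact congrArg (fun g : Equiv.Perm V => g v) this
  · congr 1; ext v; simp

end Pool.Agent.Results.MP_ff3c98_co.Bounded
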